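import Pool.Agent.H83.FS.Stm

/-!
# MP_16c8e2_co, step ODD
-/

set_option autoImplicit false

namespace Pool.Agent.H278.FS83

open SimpleGraph Pool.Agent.H83.FS

/-- The sign of a vertex: the parity of the distance from `r`. -/
noncomputable def sg {V : Type} (Y : SimpleGraph V) (r x : V) : ℤˣ := (-1) ^ (Y.dist r x)

/-- The subgraph of the edges whose ends have different signs. -/
def Yp {V : Type} (Y : SimpleGraph V) (s : V → ℤˣ) : SimpleGraph V where
  Adj x y := Y.Adj x y ∧ s x ≠ s y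
  symm := ⟨fun _ _ h => ⟨h.1.symm, h.2.symm⟩⟩
  loopless := ⟨fun _ h => h.2 rfl⟩

theorem reach {V : Type} (Y : SimpleGraph V) (hY : Y.Connected) (r : V) :
    ∀ (n : ℕ) (x : V), Y.dist r x = n → (Yp Y (sg Y r)).Reachable r x := by
  intro n
  induction n with
  | zero =>
    intro x hx
    rw [hY.dist_eq_zero_iff] at hx
    rw [hx]
  | succ n ih =>
    intro x hx
    obtain ⟨w, hw⟩ := hY.exists_walk_length_eq_dist x r
    rw [SimpleGraph.dist_comm, hx] at hw
    cases w with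
    | nil => simp at hw
    | cons h p =>
      rename_i y
      simp only [SimpleGraph.Walk.length_cons] at hw
      have h1 : Y.dist r y ≤ n := by
        rw [SimpleGraph.dist_comm]
        have := SimpleGraph.dist_le p
        omega
      have h2 : Y.dist r x ≤ Y.dist r y + Y.dist y x := hY.dist_triangle
      have h2' : Y.dist y x = 1 := SimpleGraph.dist_eq_one_iff_adj.2 h.symm
      have h3 : Y.dist r y = n := by omega
      refine (ih y h3).trans (SimpleGraph.Adj.reachable ⟨h.symm, ?_⟩)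
      unfold sg
      rw [h3, hx, pow_succ]
      intro h4
      rcases Int.units_eq_one_or ((-1 : ℤˣ) ^ n) with h5 | h5 <;> rw [h5] at h4 <;>
        exact absurd h4 (by decide)

theorem Yp_conn {V : Type} (Y : SimpleGraph V) (hY : Y.Connected) (r : V) :
    (Yp Y (sg Y r)).Connected := by
  have := hY.nonempty
  refine ⟨fun x y => ?_⟩
  exact (reach Y hY r _ x rfl).symm.trans (reach Y hY r _ y rfl)

theorem FS_mono {V T : Type} {Y Z : SimpleGraph V} (hYZ : ∀ x y, Y.Adj x y → Z.Adj x y)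
    (col : T → Bool) {σ τ : T ≃ V} (h : Rch Y col σ τ) : Rch Z col σ τ := by
  unfold Rch at *
  refine h.mono ?_
  intro σ τ h
  obtain ⟨a, b, h1, h2, h3⟩ := h
  exact ⟨a, b, h1, hYZ _ _ h2, h3⟩

/-- The invariant. -/
noncomputable def F {A B V : Type} [Fintype A] [DecidableEq A] [Fintype B] [DecidableEq B]
    (s : V → ℤˣ) (σ₀ σ : (A ⊕ B) ≃ V) : ℤˣ :=
  Equiv.Perm.sign (σ.trans σ₀.symm) * ∏ a : A, s (σ (Sum.inl a))

theorem F_step {A B V : Type} [Fintype A] [DecidableEq A] [Fintype B] [DecidableEq B]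
    (s : V → ℤˣ) (σ₀ σ τ : (A ⊕ B) ≃ V) (a : A) (b : B) (h3 : τ (Sum.inl a) = σ (Sum.inr b))
    (h4 : τ (Sum.inr b) = σ (Sum.inl a))
    (h5 : ∀ c, c ≠ Sum.inl a → c ≠ Sum.inr b → τ c = σ c) :
    F s σ₀ τ = -(s (σ (Sum.inl a)) * s (σ (Sum.inr b))) * F s σ₀ σ := by
  have e1 : τ = (Equiv.swap (Sum.inl a) (Sum.inr b)).trans σ := by
    ext c
    by_cases hc : c = Sum.inl a
    · subst hc; simp [h3]
    · by_cases hc' : c = Sum.inr b
      · subst hc'; simp [h4]
      · rw [h5 c hc hc', Equiv.trans_apply, Equiv.swap_apply_of_ne_of_ne hc hc']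
  have e2 : Equiv.Perm.sign (τ.trans σ₀.symm) = - Equiv.Perm.sign (σ.trans σ₀.symm) := by
    have : τ.trans σ₀.symm =
        (σ.trans σ₀.symm : Equiv.Perm (A ⊕ B)) * Equiv.swap (Sum.inl a) (Sum.inr b) := by
      rw [e1]
      rfl
    rw [this, Equiv.Perm.sign_mul, Equiv.Perm.sign_swap (by simp)]
    simp
  have e3 : ∏ a' : A, s (τ (Sum.inl a')) =
      (s (σ (Sum.inl a)) * s (σ (Sum.inr b))) * ∏ a' : A, s (σ (Sum.inl a')) := by
    rw [← Finset.mul_prod_erase Finset.univ (fun a' => s (τ (Sum.inl a'))) (Finset.mem_univ a),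
      ← Finset.mul_prod_erase Finset.univ (fun a' => s (σ (Sum.inl a'))) (Finset.mem_univ a)]
    have e4 : ∏ x ∈ Finset.univ.erase a, s (τ (Sum.inl x)) =
        ∏ x ∈ Finset.univ.erase a, s (σ (Sum.inl x)) := by
      refine Finset.prod_congr rfl fun x hx => ?_
      rw [h5]
      · intro h; exact (Finset.ne_of_mem_erase hx) (Sum.inl_injective h)
      · simp
    rw [e4, h3]
    have e5 : s (σ (Sum.inl a)) * s (σ (Sum.inl a)) = 1 := by
      rw [← sq, Int.units_sq]
    calc s (σ (Sum.inr b)) * ∏ x ∈ Finset.univ.erase a, s (σ (Sum.inl x))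
        = (s (σ (Sum.inl a)) * s (σ (Sum.inl a))) *
          (s (σ (Sum.inr b)) * ∏ x ∈ Finset.univ.erase a, s (σ (Sum.inl x))) := by
          rw [e5, one_mul]
      _ = _ := by
          ac_rfl
  unfold F
  rw [e2, e3, neg_mul, neg_mul]
  congr 1
  ac_rfl

theorem F_inv {A B V : Type} [Fintype A] [DecidableEq A] [Fintype B] [DecidableEq B]
    (Y : SimpleGraph V) (s : V → ℤˣ) (σ₀ σ τ : (A ⊕ B) ≃ V)
    (h : Rch (Yp Y s) Sum.isLeft σ τ) : F s σ₀ τ = F s σ₀ σ := by
  unfold Rch at h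
  obtain ⟨w⟩ := h
  induction w with
  | nil => rfl
  | cons hadj _ ih =>
    rw [ih]
    obtain ⟨a, b, h1, h2, h3, h4, h5⟩ := hadj
    have key : ∀ x y : ℤˣ, x ≠ y → -(x * y) = 1 := by decide
    rcases a with a | a <;> rcases b with b | b
    · exact absurd rfl h1
    · rw [F_step s σ₀ _ _ a b h3 h4 h5, key _ _ h2.2, one_mul]
    · rw [F_step s σ₀ _ _ b a h4 h3 (fun c hc hc' => h5 c hc' hc), key _ _ h2.2.symm, one_mul]
    · exact absurd rfl h1

theorem odd (h : S_unl) : S_odd := by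
  classical
  intro A B V _ _ _ _ _ _ Y hY hcol hA hB hne
  obtain ⟨a⟩ := hA
  obtain ⟨b⟩ := hB
  obtain ⟨e⟩ := hne
  set r : V := e (Sum.inl a) with hr
  set s : V → ℤˣ := sg Y r with hs
  -- an edge with equal signs
  obtain ⟨x, y, hxy, hsxy⟩ : ∃ x y, Y.Adj x y ∧ s x = s y := by
    by_contra hcon
    push Not at hcon
    refine hcol ?_
    have C : Y.Coloring ℤˣ := SimpleGraph.Coloring.mk s (fun {u v} huv => hcon u v huv)
    have hC := C.colorable
    have hcard : Fintype.card ℤˣ = 2 := by decide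
    rw [hcard] at hC
    exact hC
  -- the state
  obtain ⟨σ, hσa, hσb⟩ : ∃ σ : (A ⊕ B) ≃ V, σ (Sum.inl a) = x ∧ σ (Sum.inr b) = y := by
    set e' : (A ⊕ B) ≃ V := e.trans (Equiv.swap (e (Sum.inl a)) x) with he'
    have h1 : e' (Sum.inl a) = x := by simp [he']
    refine ⟨e'.trans (Equiv.swap (e' (Sum.inr b)) y), ?_, by simp⟩
    rw [Equiv.trans_apply, h1]
    refine Equiv.swap_apply_of_ne_of_ne ?_ hxy.ne
    rw [← h1]
    intro h2
    exact absurd (e'.injective h2) (by simp)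
  set σ₁ : (A ⊕ B) ≃ V := (Equiv.swap (Sum.inl a) (Sum.inr b)).trans σ with hσ₁
  have hm : Rch Y Sum.isLeft σ σ₁ := by
    refine move' ?_ (by simp)
    rw [hσa, hσb]
    exact hxy
  obtain ⟨α, β, hαβ⟩ := h A B V (Yp Y s) (Yp_conn Y hY r) σ₁ σ
  refine ⟨σ, α, β, hm.trans (FS_mono (Y := Yp Y s) (Z := Y) (fun x y h => h.1) _ hαβ), ?_⟩
  have f1 := F_inv Y s σ σ₁ _ hαβ
  have f2 : F s σ σ₁ = -(s (σ (Sum.inl a)) * s (σ (Sum.inr b))) * F s σ σ := by
    refine F_step s σ σ σ₁ a b (by simp [hσ₁]) (by simp [hσ₁]) ?_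
    intro c hc hc'
    rw [hσ₁, Equiv.trans_apply, Equiv.swap_apply_of_ne_of_ne hc hc']
  rw [f2, hσa, hσb, hsxy, ← sq, Int.units_sq] at f1
  have g1 : F s σ σ = ∏ a : A, s (σ (Sum.inl a)) := by
    unfold F
    rw [Equiv.self_trans_symm]
    have : Equiv.Perm.sign (Equiv.refl (A ⊕ B)) = 1 := Equiv.Perm.sign_refl
    rw [this, one_mul]
  have g2 : F s σ ((Equiv.sumCongr α β).trans σ) =
      (Equiv.Perm.sign α * Equiv.Perm.sign β) * ∏ a : A, s (σ (Sum.inl a)) := by
    unfold F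
    have e1 : ((Equiv.sumCongr α β).trans σ).trans σ.symm = Equiv.sumCongr α β := by
      ext c
      simp
    rw [e1]
    have e2 : Equiv.Perm.sign (Equiv.sumCongr α β) = Equiv.Perm.sign α * Equiv.Perm.sign β :=
      Equiv.Perm.sign_sumCongr α β
    rw [e2]
    congr 1
    have e3 : ∀ a : A, s (((Equiv.sumCongr α β).trans σ) (Sum.inl a)) = s (σ (Sum.inl (α a))) := by
      intro a
      simp
    rw [Finset.prod_congr rfl (fun a _ => e3 a)]
    exact Equiv.prod_comp α (fun a => s (σ (Sum.inl a)))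
  rw [g1, g2] at f1
  exact mul_right_cancel f1

end Pool.Agent.H278.FS83
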